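import Pool.Agent.Y425.CW.Stp

set_option autoImplicit false
set_option linter.unusedVariables false
set_option linter.unusedSectionVars false

open Finset
open Pool.Agent.Helper347.Sab (MGraph dg)

namespace Pool.Agent.Y425.CW

open Pool.Agent.TH697.CW6 (Tch cut tch_iff cut_iff mem_ends_iff tch_of_cut cut_insert cut_of_tch
  tch_insert allB anyB tb dig full rem allB_iff anyB_iff tb_eq full_testBit rem_testBit exists_mask)
open Pool.Agent.TH222.RG

theorem getD_cases {α : Type} (l : List α) (i : ℕ) (d : α) : l.getD i d ∈ l ∨ l.getD i d = d := by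
  by_cases h : i < l.length
  · left
    rw [List.getD_eq_getElem _ _ h]
    exact List.getElem_mem h
  · right
    exact List.getD_eq_default _ _ (not_lt.1 h)

theorem tbl_cases (BB : List (List BT)) (T0 : BT) (i : ℕ) :
    (∃ B ∈ BB, (BB.getD (Nat.div i 16) []).getD (Nat.mod i 16) T0 ∈ B) ∨
      (BB.getD (Nat.div i 16) []).getD (Nat.mod i 16) T0 = T0 := by
  rcases getD_cases BB (Nat.div i 16) [] with h | h
  · rcases getD_cases (BB.getD (Nat.div i 16) []) (Nat.mod i 16) T0 with h' | h'
    · exact Or.inl ⟨_, h, h'⟩
    · exact Or.inr h'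
  · right
    rw [h]
    simp

variable {V E : Type} [Fintype V] [DecidableEq V] [Fintype E] [DecidableEq E]

theorem parity (G : MGraph V E) (hreg : ∀ v, dg G univ v = 3) (Y : Finset V) :
    (cut G Y).card % 2 = Y.card % 2 := by
  induction Y using Finset.induction_on with
  | empty =>
    have : cut G ∅ = ∅ := by
      unfold cut
      rw [filter_eq_empty_iff]
      rintro e _ ⟨⟨w, hw, _⟩, _⟩
      exact notMem_empty _ hw
    rw [this]
    rfl
  | insert v Y hv ih =>
    have h1 : (cut G (insert v Y)) = (cut G Y \ (univ.filter fun e => v ∈ G.ends e)) ∪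
        ((univ.filter fun e => v ∈ G.ends e) \ cut G Y) := by
      ext e
      rw [cut_insert hv, mem_union, mem_sdiff, mem_sdiff, mem_filter]
      simp
    have h2 : Disjoint (cut G Y \ (univ.filter fun e => v ∈ G.ends e))
        ((univ.filter fun e => v ∈ G.ends e) \ cut G Y) := by
      rw [disjoint_left]
      intro e he he'
      rw [mem_sdiff] at he he'
      exact he.2 he'.1
    rw [h1, card_union_of_disjoint h2, card_insert_of_notMem hv]
    have h3 := card_sdiff_add_card_inter (cut G Y) (univ.filter fun e => v ∈ G.ends e)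
    have h4 := card_sdiff_add_card_inter (univ.filter fun e => v ∈ G.ends e) (cut G Y)
    rw [inter_comm] at h4
    have h5 : (univ.filter fun e => v ∈ G.ends e).card = 3 := hreg v
    omega

variable {Γ : Type} [AddCommGroup Γ]

theorem cubic_flow {S : CSys Γ} (hS : S.Ok) {s t : E → V} (hst : ∀ e, s e ≠ t e) {w : ℕ}
    (hreg : ∀ v, dg (gr s t hst) univ v = 3)
    (hbr : ∀ Y : Finset V, (cut (gr s t hst) Y).card ≠ 1)
    (hw : ∃ f : V → ℕ, Function.Injective f ∧
      ∀ T, (cut (gr s t hst) (univ.filter fun v => f v < T)).card ≤ w)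
    (tbl : ℕ → BT) (hok : ∀ i, ∃ es, chkFT S w tbl (tbl i) es = true)
    (hpos : ∀ i, 0 < (tbl i).n) (hk0 : (tbl 0).k = 0) (hp0 : (tbl 0).par = false)
    (hf0 : (tbl 0).fs = []) (hex : ∃ c, S.vc c = true) :
    ∃ f, Fl S.vals s t f (univ : Finset V) := by
  obtain ⟨c0, hc0⟩ := hex
  rcases isEmpty_or_nonempty E with hE | hE
  · refine ⟨fun _ => S.val c0, fun e => isEmptyElim e, fun v _ => ?_⟩
    unfold net
    rw [Finset.univ_eq_empty, sum_empty]
  obtain ⟨e0⟩ := hE
  have hodd : ∀ Y : Finset V, Odd Y.card → 3 ≤ (cut (gr s t hst) Y).card := by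
    intro Y hY
    have h1 := parity _ hreg Y
    have h2 := hbr Y
    rw [Nat.odd_iff] at hY
    omega
  obtain ⟨f, hf, hcut⟩ := hw
  have main : ∀ T, ∃ i o, InvF s t hst S (univ.filter fun v => f v < T) (tbl i) o := by
    intro T
    induction T with
    | zero =>
      have h0 : (univ.filter fun v => f v < 0) = (∅ : Finset V) := by
        rw [filter_eq_empty_iff]; intro v _; omega
      rw [h0]
      refine ⟨0, fun _ => e0, ⟨⟨⟨?_, ?_, ?_⟩, ?_, ?_, ?_⟩, ?_⟩⟩
      · intro i hi
        exact absurd (hk0 ▸ hi : i < 0) (Nat.not_lt_zero _)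
      · intro e he
        obtain ⟨w, hw, _⟩ := tch_of_cut he
        exact absurd hw (notMem_empty _)
      · intro i hi
        exact absurd (hk0 ▸ hi : i < 0) (Nat.not_lt_zero _)
      · dsimp only
        rw [hp0]; simp
      · dsimp only
        intro P hP; rw [hf0] at hP; exact absurd hP List.not_mem_nil
      · intro j hj
        exact absurd hj (Nat.not_lt_zero _)
      · intro j hj
        refine ⟨fun _ => S.val c0, ⟨fun e => ⟨c0, hc0, rfl⟩, fun v hv => absurd hv (notMem_empty _)⟩,
          fun i hi => ?_⟩
        rw [hk0] at hi; omega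
    | succ T ih =>
      obtain ⟨i, o, I⟩ := ih
      by_cases h : ∃ v, f v = T
      · obtain ⟨v, hv⟩ := h
        have h1 : (univ.filter fun w => f w < T + 1) = insert v (univ.filter fun w => f w < T) := by
          ext w
          rw [mem_insert, mem_filter, mem_filter]
          constructor
          · rintro ⟨_, h⟩
            rcases Nat.lt_succ_iff_lt_or_eq.1 h with h | h
            · exact Or.inr ⟨mem_univ _, h⟩
            · left; apply hf; rw [h, hv]
          · rintro (h | ⟨_, h⟩)
            · subst h; exact ⟨mem_univ _, by omega⟩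
            · exact ⟨mem_univ _, by omega⟩
        have hvX : v ∉ (univ.filter fun w => f w < T) := by
          rw [mem_filter, hv]; rintro ⟨_, h⟩; omega
        have hc := hcut (T + 1)
        rw [h1] at hc
        obtain ⟨i1, o1, I1⟩ := step hS e0 hreg hodd tbl hok I hvX hc
        refine ⟨i1, o1, ?_⟩
        rw [h1]
        exact I1
      · have h1 : (univ.filter fun w => f w < T + 1) = (univ.filter fun w => f w < T) := by
          apply filter_congr
          intro w _
          constructor
          · intro h'
            rcases Nat.lt_succ_iff_lt_or_eq.1 h' with h' | h'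
            · exact h'
            · exact absurd ⟨w, h'⟩ h
          · intro h'; omega
        rw [h1]
        exact ⟨i, o, I⟩
  obtain ⟨i, o, I⟩ := main (univ.sup f + 1)
  have hu : (univ.filter fun v => f v < univ.sup f + 1) = (univ : Finset V) := by
    rw [filter_eq_self]
    intro v hv
    exact Nat.lt_succ_of_le (le_sup (f := f) hv)
  rw [hu] at I
  obtain ⟨f', hf', _⟩ := I.sts 0 (hpos i)
  exact ⟨f', hf'⟩

end Pool.Agent.Y425.CW
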