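import Pool.Agent.Y425.CW.RedB
import Pool.Agent.Y425.CW.Cub

set_option autoImplicit false

/-!
Flows with values in a symmetric subset of an abelian group in all bridgeless graphs of bounded
cutwidth, from a table of boundary types.
-/

open Finset

namespace Pool.Agent.Y425.CW

open Pool.Agent.Helper347.Sab (MGraph dg)
open Pool.Agent.TH697.CW6 (cut cut_iff)
open Pool.Agent.TH222.RG

variable {Γ : Type} [AddCommGroup Γ]

theorem cut_ct {V E : Type} [Fintype V] [DecidableEq V] [Fintype E] [DecidableEq E] {s t : E → V}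
    (hst : ∀ e, s e ≠ t e) (Y : Finset V) : cut (gr s t hst) Y = ct s t {x | x ∈ Y} := by
  ext e
  rw [cut_iff (G := gr s t hst) (e := e) (a := s e) (b := t e) rfl Y, mem_ct]
  simp only [Set.mem_ofPred_eq]
  tauto

theorem general {S : CSys Γ} (hS : S.Ok) {w : ℕ} (tbl : ℕ → BT)
    (hok : ∀ i, ∃ es, chkFT S w tbl (tbl i) es = true)
    (hpos : ∀ i, 0 < (tbl i).n) (hk0 : (tbl 0).k = 0) (hp0 : (tbl 0).par = false)
    (hf0 : (tbl 0).fs = []) (hex : ∃ c, S.vc c = true)
    (V E : Type) [Fintype V] [Fintype E] (s t : E → V) (hbr : Br s t)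
    (hw : ∃ num, Wd w s t num) : HasFl S.vals s t := by
  classical
  obtain ⟨num, hw⟩ := hw
  have hne : S.vals.Nonempty := by
    obtain ⟨c, hc⟩ := hex
    exact ⟨S.val c, c, hc, rfl⟩
  refine red (vals_neg hS) hne w ?_ _ V E s t num hbr hw le_rfl
  intro V' E' _ _ s' t' num' hst hcub hbr' hw'
  have h1 : ∀ v, dg (gr s' t' hst) univ v = 3 := by
    intro v
    rw [← hcub v]
    unfold dg
    congr 1
    ext e
    rw [mem_filter, mem_ct_one, mem_gr]
    have := hst e
    constructor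
    · rintro ⟨_, h | h⟩
      · subst h; exact Or.inl ⟨rfl, fun h' => this h'.symm⟩
      · subst h; exact Or.inr ⟨this, rfl⟩
    · rintro (⟨h, _⟩ | ⟨_, h⟩)
      · exact ⟨mem_univ _, Or.inl h.symm⟩
      · exact ⟨mem_univ _, Or.inr h.symm⟩
  have h2 : ∀ Y : Finset V', (cut (gr s' t' hst) Y).card ≠ 1 := by
    intro Y
    rw [cut_ct]
    exact hbr' _
  have h3 : ∃ f : V' → ℕ, Function.Injective f ∧
      ∀ T, (cut (gr s' t' hst) (univ.filter fun v => f v < T)).card ≤ w := by
    refine ⟨num', hw'.1, fun T => ?_⟩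
    rw [cut_ct]
    refine le_trans (le_of_eq ?_) (hw'.2 T)
    congr 2
    ext x
    simp
  obtain ⟨f, hf⟩ := cubic_flow hS hst h1 h2 h3 tbl hok hpos hk0 hp0 hf0 hex
  refine ⟨f, hf.1, fun v => ?_⟩
  rw [← hf.2 v (mem_univ v)]
  unfold nt net
  refine sum_congr rfl fun e _ => ?_
  congr

end Pool.Agent.Y425.CW
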