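import Pool.Agent.Y425.CW.Sys

set_option autoImplicit false
set_option linter.unusedVariables false
set_option linter.unusedSectionVars false
set_option linter.unusedSimpArgs false

open Finset
open Pool.Agent.Helper347.Sab (MGraph dg)

namespace Pool.Agent.Y425.CW

open Pool.Agent.TH697.CW6 (Tch cut tch_iff cut_iff mem_ends_iff tch_of_cut cut_insert cut_of_tch
  tch_insert allB anyB tb dig full rem allB_iff anyB_iff tb_eq full_testBit rem_testBit exists_mask)
open Pool.Agent.TH222.RG

variable {V E : Type} [Fintype V] [DecidableEq V] [Fintype E] [DecidableEq E]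

/-- the loopless multigraph with the given ends -/
def gr (s t : E → V) (h : ∀ e, s e ≠ t e) : MGraph V E :=
  ⟨fun e => s(s e, t e), fun e he => h e (Sym2.mk_isDiag_iff.1 he)⟩

variable {Γ : Type} [AddCommGroup Γ]

/-- what leaves the vertex v -/
def net (s t : E → V) (f : E → Γ) (v : V) : Γ :=
  ∑ e, ((if s e = v then f e else 0) - (if t e = v then f e else 0))

/-- f has values in B and is conserved in X -/
def Fl (B : Set Γ) (s t : E → V) (f : E → Γ) (X : Finset V) : Prop :=
  (∀ e, f e ∈ B) ∧ ∀ v ∈ X, net s t f v = 0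

/-- the value of f away from X -/
def ov (s : E → V) (X : Finset V) (f : E → Γ) (e : E) : Γ := if s e ∈ X then f e else - f e

theorem net_sum (s t : E → V) (f : E → Γ) (Y : Finset V) :
    ∑ w ∈ Y, net s t f w =
      ∑ e, ((if s e ∈ Y then f e else 0) - (if t e ∈ Y then f e else 0)) := by
  unfold net
  rw [sum_comm]
  refine sum_congr rfl fun e _ => ?_
  rw [sum_sub_distrib, sum_ite_eq, sum_ite_eq]

theorem net_sum_cut {s t : E → V} (h : ∀ e, s e ≠ t e) (f : E → Γ) (Y : Finset V) :
    ∑ w ∈ Y, net s t f w = ∑ e ∈ cut (gr s t h) Y, ov s Y f e := by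
  rw [net_sum, ← sum_subset (subset_univ (cut (gr s t h) Y))]
  · refine sum_congr rfl fun e he => ?_
    have he' := (cut_iff (G := gr s t h) (e := e) (a := s e) (b := t e) rfl Y).1 he
    unfold ov
    rcases he' with ⟨h1, h2⟩ | ⟨h1, h2⟩
    · rw [if_pos h1, if_neg h2, if_pos h1, sub_zero]
    · rw [if_neg h2, if_pos h1, if_neg h2, zero_sub]
  · intro e _ he
    have he' := (not_congr (cut_iff (G := gr s t h) (e := e) (a := s e) (b := t e) rfl Y)).1 he
    by_cases h1 : s e ∈ Y
    · by_cases h2 : t e ∈ Y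
      · rw [if_pos h1, if_pos h2, sub_self]
      · exact absurd (Or.inl ⟨h1, h2⟩) he'
    · by_cases h2 : t e ∈ Y
      · exact absurd (Or.inr ⟨h2, h1⟩) he'
      · rw [if_neg h1, if_neg h2, sub_self]

variable {s t : E → V} {hst : ∀ e, s e ≠ t e} {r : ℕ} {X : Finset V} {k : ℕ} {o : ℕ → E} {v : V}
  {lm m : ℕ} {n : ℕ → E} {B : Set Γ}

theorem pts_sum_eq {G : MGraph V E} (P : Pts G X k o) (F : E → Γ) :
    ∑ e ∈ cut G X, F e = ∑ i ∈ range k, F (o i) := by
  symm
  apply sum_bij (fun i _ => o i)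
  · intro i hi; exact P.mem i (mem_range.1 hi)
  · intro i hi j hj hij; exact P.inj i (mem_range.1 hi) j (mem_range.1 hj) hij
  · intro e he
    obtain ⟨i, hi, h⟩ := P.sur e he
    exact ⟨i, mem_range.2 hi, h⟩
  · intro i hi; rfl

theorem mem_gr (e : E) (w : V) : w ∈ (gr s t hst).ends e ↔ w = s e ∨ w = t e := by
  show w ∈ s(s e, t e) ↔ _
  rw [Sym2.mem_iff]

theorem state_step (C : Ctx (gr s t hst) r X k o v lm m n) {k' c : ℕ}
    (P : Prt k lm m k' c) (hB : ∀ x ∈ B, - x ∈ B) {f : E → Γ} (hf : Fl B s t f X) (σ : ℕ → Γ)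
    (hσ : ∀ i < k', σ i ∈ B) (h0 : ∑ i ∈ range k', σ i = 0)
    (hold : ∀ i < k', dig c i < 8 → σ i = ov s X f (o (dig c i))) :
    ∃ f', Fl B s t f' (insert v X) ∧
      ∀ i < k', ov s (insert v X) f' (sr o n (dig c i)) = σ i := by
  classical
  obtain ⟨f', hf'⟩ : ∃ f' : E → Γ, ∀ e, f' e = if Tch (gr s t hst) X e then f e else
      if h : ∃ i, i < k' ∧ sr o n (dig c i) = e then
        (if s e = v then σ h.choose else - σ h.choose) else f e := ⟨_, fun e => rfl⟩
  have hT : ∀ e, Tch (gr s t hst) X e → f' e = f e := by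
    intro e he; rw [hf', if_pos he]
  have hport : ∀ i < k', ov s (insert v X) f' (sr o n (dig c i)) = σ i := by
    intro i hi
    rcases C.src_cases (P.p1 i hi) with ⟨h6, hxk, hs1, hs2, hs3⟩ | ⟨h6, hxr, hs1, hs2, hs3⟩
    · rw [hs1, hold i hi h6]
      rw [mem_gr] at hs3
      push Not at hs3
      unfold ov
      rw [hT _ (tch_of_cut hs2)]
      have : s (o (dig c i)) ∈ insert v X ↔ s (o (dig c i)) ∈ X := by
        rw [mem_insert]
        constructor
        · rintro (h | h)
          · exact absurd h.symm hs3.1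
          · exact h
        · exact Or.inr
      simp only [this]
    · have hnt : ¬ Tch (gr s t hst) X (sr o n (dig c i)) := by rw [hs1]; exact C.ntch hxr
      have hex : ∃ i', i' < k' ∧ sr o n (dig c i') = sr o n (dig c i) := ⟨i, hi, rfl⟩
      have hch : hex.choose = i := by
        have h1 := hex.choose_spec
        exact P.p3 _ h1.1 i hi (C.src_inj (P.p1 _ h1.1) (P.p1 i hi) h1.2)
      have hval : f' (sr o n (dig c i)) = if s (sr o n (dig c i)) = v then σ i else - σ i := by
        rw [hf', if_neg hnt, dif_pos hex, hch]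
      rw [← hs1, mem_gr] at hs3
      unfold ov
      rw [hval]
      have hnX : s (sr o n (dig c i)) ∉ X := by
        intro h
        exact hnt ((tch_iff (G := gr s t hst) (a := s (sr o n (dig c i)))
          (b := t (sr o n (dig c i))) rfl X).2 (Or.inl h))
      by_cases hsv : s (sr o n (dig c i)) = v
      · rw [if_pos hsv, if_pos (by rw [hsv]; exact mem_insert_self _ _)]
      · rw [if_neg hsv, if_neg (by rw [mem_insert]; tauto), neg_neg]
  refine ⟨f', ⟨?_, ?_⟩, hport⟩
  · intro e
    rw [hf']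
    split_ifs with h1 h2 h3
    · exact hf.1 e
    · exact hσ _ h2.choose_spec.1
    · exact hB _ (hσ _ h2.choose_spec.1)
    · exact hf.1 e
  · have hX : ∀ w ∈ X, net s t f' w = 0 := by
      intro w hw
      rw [← hf.2 w hw]
      unfold net
      refine sum_congr rfl fun e _ => ?_
      by_cases h1 : Tch (gr s t hst) X e
      · rw [hT e h1]
      · have h2 : s e ≠ w := by
          rintro rfl
          exact h1 ((tch_iff (G := gr s t hst) (a := s e) (b := t e) rfl X).2 (Or.inl hw))
        have h3 : t e ≠ w := by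
          rintro rfl
          exact h1 ((tch_iff (G := gr s t hst) (a := s e) (b := t e) rfl X).2 (Or.inr hw))
        rw [if_neg h2, if_neg h3, if_neg h2, if_neg h3]
    intro w hw
    rw [mem_insert] at hw
    rcases hw with hw | hw
    · subst hw
      have h1 := net_sum_cut hst f' (insert w X)
      rw [sum_insert C.hv, sum_eq_zero hX, add_zero, pts_sum_eq (C.newPts P)] at h1
      rw [h1, ← h0]
      exact sum_congr rfl fun i hi => hport i (mem_range.1 hi)
    · exact hX w hw

/-- the values satisfied by a set X with the ports o, of the type t -/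
structure InvF (s t : E → V) (hst : ∀ e, s e ≠ t e) (S : CSys Γ) (X : Finset V) (T : BT)
    (o : ℕ → E) : Prop where
  inv : Inv (gr s t hst) 3 X ⟨T.k, T.par, 0, 0, T.fs⟩ o
  sts : ∀ j < T.n, ∃ f, Fl S.vals s t f X ∧
    ∀ i < T.k, ov s X f (o i) = S.val (cd T.st j i)

theorem vals_neg {S : CSys Γ} (hS : S.Ok) : ∀ x ∈ S.vals, - x ∈ S.vals := by
  rintro x ⟨c, hc, rfl⟩
  exact hS.neg c hc

theorem act {S : CSys Γ} (hS : S.Ok) {g : ℕ} (hg : g < S.ng) {f : E → Γ}
    (hf : Fl S.vals s t f X) {F : ℕ → ℕ} {k : ℕ} (hF : ∀ i < k, S.vc (F i) = true)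
    (ho : ∀ i < k, ov s X f (o i) = S.val (F i)) :
    ∃ f', Fl S.vals s t f' X ∧ ∀ i < k, ov s X f' (o i) = S.val (S.pt g (F i)) := by
  obtain ⟨φ, hφ⟩ := hS.sym g hg
  refine ⟨fun e => φ (f e), ⟨?_, ?_⟩, ?_⟩
  · intro e
    obtain ⟨c, hc, h⟩ := hf.1 e
    exact ⟨S.pt g c, (hφ c hc).1, by rw [(hφ c hc).2, h]⟩
  · intro w hw
    have h1 : net s t (fun e => φ (f e)) w = φ (net s t f w) := by
      unfold net
      rw [map_sum]
      refine sum_congr rfl fun e _ => ?_
      rw [map_sub]
      congr 1 <;> split_ifs <;> simp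
    rw [h1, hf.2 w hw, map_zero]
  · intro i hi
    rw [(hφ _ (hF i hi)).2, ← ho i hi]
    unfold ov
    split_ifs <;> simp

structure OkFT (S : CSys Γ) (T : BT) : Prop where
  hk : T.k ≤ 8
  hfs : ∀ Q ∈ T.fs, Q.1 < 2 ^ T.k
  hc : ∀ j < T.n, ∀ i < T.k, S.vc (cd T.st j i) = true
  hz : ∀ j < T.n, ∑ i ∈ range T.k, S.val (cd T.st j i) = 0

theorem okF_spec {S : CSys Γ} (hS : S.Ok) {T : BT} (h : okF S T = true) : OkFT S T := by
  unfold okF at h
  simp only [Bool.and_eq_true, allB_iff, List.all_eq_true, ble_iff, blt_iff] at h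
  obtain ⟨h1, h4, h5⟩ := h
  refine ⟨h1, ?_, fun j hj => (h5 j hj).1, ?_⟩
  · intro Q hQ
    have := h4 Q hQ
    have e : Nat.shiftLeft 1 T.k = 1 <<< T.k := rfl
    rw [e, Nat.one_shiftLeft] at this
    exact this
  · intro j hj
    exact hS.sum T.k h1 (fun i => cd T.st j i) (h5 j hj).1 (h5 j hj).2

/-- one step -/
theorem step {S : CSys Γ} (hS : S.Ok) {w : ℕ} (e0 : E)
    (hreg : ∀ v, dg (gr s t hst) univ v = 3)
    (hodd : ∀ Y : Finset V, Odd Y.card → 3 ≤ (cut (gr s t hst) Y).card)
    (tbl : ℕ → BT) (hok : ∀ i, ∃ es, chkFT S w tbl (tbl i) es = true)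
    {i0 : ℕ} {o : ℕ → E} (I : InvF s t hst S X (tbl i0) o) (hv : v ∉ X)
    (hw : (cut (gr s t hst) (insert v X)).card ≤ w) :
    ∃ i1 o', InvF s t hst S (insert v X) (tbl i1) o' := by
  obtain ⟨es, hes⟩ := hok i0
  unfold chkFT at hes
  simp only [Bool.and_eq_true, allB_iff, List.all_eq_true] at hes
  obtain ⟨hes1, hes2, hes3⟩ := hes
  have O := okF_spec hS hes1
  have IP : Pts (gr s t hst) X (tbl i0).k o := I.inv.pts
  obtain ⟨lm, m, n, C⟩ := exists_ctx (r := 3) e0 (hreg v) O.hk IP hv
  have hlt : lm < 2 ^ (tbl i0).k := lm_lt C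
  have hr := C.hr
  -- the number of new ports
  have hcl : pc8 lm = ((cut (gr s t hst) X).filter fun e => v ∈ (gr s t hst).ends e).card := by
    apply C.pts.card_ports C.hk
    · exact filter_subset _ _
    · intro i
      rw [C.hlm i, mem_filter]
      constructor
      · rintro ⟨h1, h2⟩; exact ⟨h1, C.pts.mem i h1, h2⟩
      · rintro ⟨h1, _, h2⟩; exact ⟨h1, h2⟩
  have hcm : (univ.filter fun e => v ∈ (gr s t hst).ends e ∧ e ∉ cut (gr s t hst) X).card = m := by
    have : (univ.filter fun e => v ∈ (gr s t hst).ends e ∧ e ∉ cut (gr s t hst) X) =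
        (range m).image n := by
      ext e
      rw [mem_filter, mem_image]
      constructor
      · rintro ⟨_, h1, h2⟩
        obtain ⟨q, hq, h⟩ := C.hns e h1 h2
        exact ⟨q, mem_range.2 hq, h⟩
      · rintro ⟨q, hq, h⟩
        rw [← h]
        exact ⟨mem_univ _, C.hn q (mem_range.1 hq)⟩
    rw [this, card_image_of_injOn, card_range]
    intro i hi j hj hij
    rw [mem_coe, mem_range] at hi hj
    exact C.hni i hi j hj hij
  have hc4 : (cut (gr s t hst) (insert v X)).card =
      ((cut (gr s t hst) X).filter fun e => v ∉ (gr s t hst).ends e).card + m := by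
    rw [← hcm, ← card_union_of_disjoint]
    · congr 1
      ext e
      rw [cut_insert C.hv]
      simp only [mem_union, mem_filter, mem_univ, true_and]
    · rw [disjoint_left]
      intro e h1 h2
      rw [mem_filter] at h1 h2
      exact h2.2.2 h1.1
  have hc5 : ((cut (gr s t hst) X).filter fun e => v ∈ (gr s t hst).ends e).card +
      ((cut (gr s t hst) X).filter fun e => v ∉ (gr s t hst).ends e).card = (tbl i0).k := by
    rw [card_filter_add_card_filter_not, C.pts.card_cut]
  have hpat : patB 3 w (tbl i0).k lm = true := by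
    unfold patB
    rw [Bool.and_eq_true, ble_iff, ble_iff]
    have e1 : Nat.add (tbl i0).k 3 = (tbl i0).k + 3 := rfl
    have e2 : Nat.add w (Nat.mul 2 (pc8 lm)) = w + 2 * pc8 lm := rfl
    rw [e1, e2]
    omega
  have hsh : lm < Nat.shiftLeft 1 (tbl i0).k := by
    have e : Nat.shiftLeft 1 (tbl i0).k = 1 <<< (tbl i0).k := rfl
    rw [e, Nat.one_shiftLeft]; exact hlt
  have h3 := hes3 lm hsh
  have hex : exclB 3 (tbl i0) lm = false := by
    have := C.not_exclB (t := ⟨(tbl i0).k, (tbl i0).par, 0, 0, (tbl i0).fs⟩) I.inv hodd O.hfs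
    exact this
  rw [hpat, cond_true, Bool.or_eq_true, hex, List.any_eq_true] at h3
  rcases h3 with h3 | ⟨e, he, hel⟩
  · exact absurd h3 (by simp)
  have hel' : e.lm = lm := (beq_iff _ _).1 hel
  have hce := hes2 e he
  obtain ⟨es1, hes1'⟩ := hok e.ti
  unfold chkFT at hes1'
  rw [Bool.and_eq_true] at hes1'
  have O1 := okF_spec hS hes1'.1
  unfold chkF at hce
  rw [hel'] at hce
  refine ⟨e.ti, fun i => sr o n (dig e.c i), ?_⟩
  revert hce O1
  generalize tbl e.ti = t1
  obtain ⟨k', par', n', st', fs'⟩ := t1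
  intro hce O1
  dsimp only at hce
  simp only [Bool.and_eq_true, List.all_eq_true] at hce
  obtain ⟨g1, g2, g3, g4, g5⟩ := hce
  have P := C.prt (by norm_num) g3
  refine ⟨⟨C.newPts P, ?_, ?_, ?_⟩, ?_⟩
  · have hp := I.inv.par
    dsimp only at hp ⊢
    rw [card_insert_of_notMem C.hv, Nat.odd_add_one, ← hp]
    revert g2
    cases (tbl i0).par <;> cases par' <;> simp [xorB]
  · intro Q hQ
    exact C.factB_spec (t := ⟨(tbl i0).k, (tbl i0).par, 0, 0, (tbl i0).fs⟩) I.inv O.hfs P
      (g4 Q hQ)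
  · intro j hj
    exact absurd hj (Nat.not_lt_zero _)
  · intro j hj
    unfold statesF at g5
    rw [allB_iff] at g5
    have := g5 j hj
    simp only at this
    generalize Nat.land (Nat.shiftRight e.ws (Nat.mul 20 j)) 1048575 = ww at this
    cases hc : Nat.blt (Nat.shiftRight ww 10) (tbl i0).n
    · rw [hc, cond_false] at this; exact absurd this (by simp)
    rw [hc, cond_true] at this
    cases hg : Nat.blt (Nat.land ww 1023) S.ng
    · rw [hg, cond_false] at this; exact absurd this (by simp)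
    rw [hg, cond_true] at this
    rw [blt_iff] at hc hg
    obtain ⟨f, hf, hfo⟩ := I.sts _ hc
    obtain ⟨f1, hf1, hfo1⟩ := act (o := o) hS hg hf (fun i hi => O.hc _ hc i hi) hfo
    unfold stOK at this
    rw [allB_iff] at this
    refine state_step C P (vals_neg hS) hf1 (fun i => S.val (cd st' j i))
      (fun i hi => ⟨_, O1.hc j hj i hi, rfl⟩) (O1.hz j hj) ?_
    intro i hi h8
    have h9 := this i hi
    rw [(blt_iff _ _).2 h8, cond_true, beq_iff] at h9
    have h10 : dig e.c i < (tbl i0).k := by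
      rcases C.src_cases (P.p1 i hi) with ⟨_, h, _⟩ | ⟨h, _⟩
      · exact h
      · exact absurd h8 h
    beta_reduce
    rw [hfo1 _ h10, h9]

end Pool.Agent.Y425.CW
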