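import Mathlib

set_option autoImplicit false
set_option linter.unusedVariables false
set_option linter.unusedSectionVars false

/-!
Reduction of bridgeless graphs of bounded cutwidth to cubic ones, for flows with values in a
symmetric subset of an abelian group. Basic notions and the first operation: two edges at a vertex
of degree at least four are moved to a new vertex.
-/

open Finset

namespace Pool.Agent.Y425.CW

open Classical in
/-- the edges with exactly one end in Z -/
noncomputable def ct {V E : Type} [Fintype E] (s t : E → V) (Z : Set V) : Finset E :=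
  univ.filter (fun e => ¬ (s e ∈ Z ↔ t e ∈ Z))

open Classical in
/-- what leaves v -/
noncomputable def nt {V E Γ : Type} [Fintype E] [AddCommGroup Γ] (s t : E → V) (f : E → Γ)
    (v : V) : Γ :=
  ∑ e, ((if s e = v then f e else 0) - (if t e = v then f e else 0))

/-- no cut with exactly one edge -/
def Br {V E : Type} [Fintype E] (s t : E → V) : Prop := ∀ Z : Set V, (ct s t Z).card ≠ 1

/-- the numbering shows that the cutwidth is at most w -/
def Wd {V E : Type} [Fintype E] (w : ℕ) (s t : E → V) (num : V → ℕ) : Prop :=
  Function.Injective num ∧ ∀ n, (ct s t {v | num v < n}).card ≤ w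

/-- a flow with values in B -/
def HasFl {V E Γ : Type} [Fintype E] [AddCommGroup Γ] (B : Set Γ) (s t : E → V) : Prop :=
  ∃ f : E → Γ, (∀ e, f e ∈ B) ∧ ∀ v, nt s t f v = 0

variable {V E Γ : Type} [Fintype E] [AddCommGroup Γ]

theorem mem_ct {s t : E → V} {Z : Set V} {e : E} : e ∈ ct s t Z ↔ ¬ (s e ∈ Z ↔ t e ∈ Z) := by
  classical
  unfold ct
  rw [mem_filter]
  simp

theorem mem_ct_one {s t : E → V} {v : V} {e : E} :
    e ∈ ct s t {v} ↔ (s e = v ∧ t e ≠ v) ∨ (s e ≠ v ∧ t e = v) := by
  rw [mem_ct, Set.mem_singleton_iff, Set.mem_singleton_iff]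
  tauto

theorem ct_congr {V' : Type} {s t : E → V} {s' t' : E → V'} {Z : Set V} {Z' : Set V'}
    (h : ∀ e, (s e ∈ Z ↔ t e ∈ Z) ↔ (s' e ∈ Z' ↔ t' e ∈ Z')) : ct s t Z = ct s' t' Z' := by
  ext e
  rw [mem_ct, mem_ct, h e]

theorem push {V' : Type} [Fintype V'] (π : V' → V) (s t : E → V') (f : E → Γ)
    (h : ∀ x, nt s t f x = 0) (u : V) : nt (fun e => π (s e)) (fun e => π (t e)) f u = 0 := by
  classical
  have h1 : ∑ x ∈ univ.filter (fun x => π x = u), nt s t f x = 0 :=
    sum_eq_zero fun x _ => h x
  rw [← h1]
  unfold nt
  rw [sum_comm]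
  refine sum_congr rfl fun e _ => ?_
  rw [sum_sub_distrib, sum_ite_eq, sum_ite_eq]
  simp only [mem_filter, mem_univ, true_and]

/-- the total is zero -/
theorem nt_total [Fintype V] (s t : E → V) (f : E → Γ) : ∑ v, nt s t f v = 0 := by
  classical
  unfold nt
  rw [sum_comm]
  refine sum_eq_zero fun e _ => ?_
  rw [sum_sub_distrib, sum_ite_eq, sum_ite_eq, if_pos (mem_univ _), if_pos (mem_univ _), sub_self]

theorem Wd.rev {s t : E → V} [Fintype V] {w : ℕ} {num : V → ℕ} (h : Wd w s t num) :
    ∃ M, (∀ v, num v ≤ M) ∧ Wd w s t (fun v => M - num v) := by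
  refine ⟨univ.sup num, fun v => le_sup (f := num) (mem_univ v), ?_, ?_⟩
  · intro u v huv
    have h1 := le_sup (f := num) (mem_univ u)
    have h2 := le_sup (f := num) (mem_univ v)
    apply h.1
    beta_reduce at huv
    omega
  · intro n
    refine le_trans (le_of_eq ?_) (h.2 (univ.sup num + 1 - n))
    congr 1
    apply ct_congr
    intro e
    have h1 := le_sup (f := num) (mem_univ (s e))
    have h2 := le_sup (f := num) (mem_univ (t e))
    simp only [Set.mem_ofPred_eq]
    omega

/-- new ends: the edges a and b leave v for the new vertex none -/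
noncomputable def ns (v : V) (a b : E) (s : E → V) (e : E) : Option V :=
  open Classical in if (e = a ∨ e = b) ∧ s e = v then none else some (s e)

variable {v : V} {a b : E} {s t : E → V}

theorem ns_pi (e : E) : (ns v a b s e).getD v = s e := by
  classical
  unfold ns
  split_ifs with h
  · rw [← h.2]; rfl
  · rfl

theorem ns_mem {Z : Set (Option V)} (hZ : none ∈ Z ↔ some v ∈ Z) (e : E) :
    ns v a b s e ∈ Z ↔ s e ∈ {u | some u ∈ Z} := by
  classical
  unfold ns
  split_ifs with h
  · rw [h.2]; exact hZ
  · exact Iff.rfl

theorem ct_same {Z : Set (Option V)} (hZ : none ∈ Z ↔ some v ∈ Z) :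
    ct (ns v a b s) (ns v a b t) Z = ct s t {u | some u ∈ Z} := by
  apply ct_congr
  intro e
  rw [ns_mem hZ, ns_mem hZ]

/-- with the new edge -/
noncomputable def os (v : V) (a b : E) (s : E → V) : Option E → Option V
  | none => some v
  | some e => ns v a b s e

noncomputable def ot (v : V) (a b : E) (t : E → V) : Option E → Option V
  | none => none
  | some e => ns v a b t e

theorem ct_opt (Z : Set (Option V)) : (ct (os v a b s) (ot v a b t) Z).card =
    (open Classical in if (none ∈ Z ↔ some v ∈ Z) then 0 else 1) +
      (ct (ns v a b s) (ns v a b t) Z).card := by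
  classical
  unfold ct
  rw [card_filter, card_filter, Fintype.sum_option]
  congr 1
  have : os v a b s none = some v := rfl
  have h2 : ot v a b t none = none := rfl
  rw [this, h2]
  by_cases h : (none ∈ Z ↔ some v ∈ Z)
  · rw [if_neg (not_not.2 h.symm), if_pos h]
  · rw [if_pos (fun h' => h h'.symm), if_neg h]

theorem ct_none [DecidableEq E] (ha : a ∈ ct s t {v}) (hb : b ∈ ct s t {v}) :
    ct (ns v a b s) (ns v a b t) {none} = {a, b} := by
  ext e
  rw [mem_ct_one] at ha hb
  rw [mem_ct_one, mem_insert, mem_singleton]
  have key : ∀ q : E → V, (ns v a b q e = none ↔ (e = a ∨ e = b) ∧ q e = v) := by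
    intro q
    unfold ns
    split_ifs with h
    · simp [h]
    · simp only [false_iff]; exact h
  rw [Ne, Ne, key s, key t]
  constructor
  · rintro (h | h)
    · exact h.1.1
    · exact h.2.1
  · rintro (h | h)
    · subst h; tauto
    · subst h; tauto

theorem ct_v [DecidableEq E] (ha : a ∈ ct s t {v}) (hb : b ∈ ct s t {v}) :
    ct (ns v a b s) (ns v a b t) {some v} = ct s t {v} \ {a, b} := by
  ext e
  rw [mem_sdiff, mem_insert, mem_singleton, mem_ct_one, mem_ct_one]
  rw [mem_ct_one] at ha hb
  have key : ∀ q : E → V, (ns v a b q e = some v ↔ ¬ (e = a ∨ e = b) ∧ q e = v) := by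
    intro q
    unfold ns
    split_ifs with h
    · simp [h.1]
    · rw [Option.some_inj]; tauto
  rw [Ne, Ne, key s, key t]
  tauto

theorem ct_other {u : V} (hu : u ≠ v) :
    ct (ns v a b s) (ns v a b t) {some u} = ct s t {u} := by
  rw [ct_same]
  · congr 1
    ext x
    simp
  · simp [hu.symm]

/-- potential -/
def phi (d : ℕ) : ℕ := if d = 2 then 1 else if d ≤ 3 then 0 else 2 * d - 5

theorem caseA [Fintype V] {B : Set Γ} {w : ℕ} {num : V → ℕ} (hbr : Br s t) (hw : Wd w s t num)
    (v : V) (a b : E) (hab : a ≠ b) (ha : a ∈ ct s t {v}) (hb : b ∈ ct s t {v})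
    (hleft : ∀ e, e = a ∨ e = b → (s e ≠ v → num (s e) < num v) ∧ (t e ≠ v → num (t e) < num v))
    (hd : 4 ≤ (ct s t {v}).card)
    (IH : ∀ (V' E' : Type) [Fintype V'] [Fintype E'] (s' t' : E' → V') (num' : V' → ℕ),
      Br s' t' → Wd w s' t' num' →
      ∑ x, phi (ct s' t' {x}).card < ∑ x, phi (ct s t {x}).card → HasFl B s' t') :
    HasFl B s t := by
  classical
  -- cuts that separate the two vertices
  have hsep : ∀ n, ¬ (none ∈ {x : Option V | x.elim (2 * num v) (fun u => 2 * num u + 1) < n} ↔
      some v ∈ {x : Option V | x.elim (2 * num v) (fun u => 2 * num u + 1) < n}) →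
      (ct (ns v a b s) (ns v a b t)
        {x : Option V | x.elim (2 * num v) (fun u => 2 * num u + 1) < n}).card + 2 ≤ w := by
    intro n hn
    have hn1 : n = 2 * num v + 1 := by
      simp only [Set.mem_ofPred_eq, Option.elim_none, Option.elim_some] at hn
      omega
    subst hn1
    have h1 := hw.2 (num v)
    refine le_trans ?_ h1
    have h2 : ct (ns v a b s) (ns v a b t)
        {x : Option V | x.elim (2 * num v) (fun u => 2 * num u + 1) < 2 * num v + 1} ⊆
        ct s t {u | num u < num v} \ {a, b} := by
      intro e he
      rw [mem_ct] at he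
      have hne : ¬ (e = a ∨ e = b) := by
        intro hab'
        apply he
        have h3 : ∀ q : E → V, (q e ≠ v → num (q e) < num v) → ns v a b q e ∈
            {x : Option V | x.elim (2 * num v) (fun u => 2 * num u + 1) < 2 * num v + 1} := by
          intro q hq
          unfold ns
          split_ifs with h
          · simp
          · have h4 : q e ≠ v := fun h5 => h ⟨hab', h5⟩
            have := hq h4
            simp only [Set.mem_ofPred_eq, Option.elim_some]
            omega
        exact ⟨fun _ => h3 t (hleft e hab').2, fun _ => h3 s (hleft e hab').1⟩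
      rw [mem_sdiff, mem_insert, mem_singleton]
      refine ⟨?_, hne⟩
      rw [mem_ct]
      have h3 : ∀ q : E → V, (ns v a b q e ∈
          {x : Option V | x.elim (2 * num v) (fun u => 2 * num u + 1) < 2 * num v + 1} ↔
          q e ∈ {u | num u < num v}) := by
        intro q
        unfold ns
        rw [if_neg (fun h => hne h.1)]
        simp only [Set.mem_ofPred_eq, Option.elim_some]
        omega
      rw [h3 s, h3 t] at he
      exact he
    have h4 : ({a, b} : Finset E) ⊆ ct s t {u | num u < num v} := by
      have h5 : ∀ e, (e = a ∨ e = b) → e ∈ ct s t {v} → e ∈ ct s t {u | num u < num v} := by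
        intro e he h6
        rw [mem_ct_one] at h6
        rw [mem_ct]
        simp only [Set.mem_ofPred_eq]
        rcases h6 with ⟨h7, h8⟩ | ⟨h7, h8⟩
        · have := (hleft e he).2 h8
          rw [h7]; omega
        · have := (hleft e he).1 h7
          rw [h8]; omega
      intro e he
      rw [mem_insert, mem_singleton] at he
      rcases he with he | he
      · exact h5 e (Or.inl he) (he ▸ ha)
      · exact h5 e (Or.inr he) (he ▸ hb)
    have h5 := card_le_card h2
    rw [card_sdiff_of_subset h4, card_pair hab] at h5
    have h6 := card_le_card h4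
    rw [card_pair hab] at h6
    omega
  have hsame : ∀ n, (none ∈ {x : Option V | x.elim (2 * num v) (fun u => 2 * num u + 1) < n} ↔
      some v ∈ {x : Option V | x.elim (2 * num v) (fun u => 2 * num u + 1) < n}) →
      (ct (ns v a b s) (ns v a b t)
        {x : Option V | x.elim (2 * num v) (fun u => 2 * num u + 1) < n}).card ≤ w := by
    intro n hn
    rw [ct_same hn]
    have h1 := hw.2 (n / 2)
    refine le_trans (le_of_eq ?_) h1
    congr 2
    ext u
    simp only [Set.mem_ofPred_eq, Option.elim_some]
    omega
  have hinj : Function.Injective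
      (fun x : Option V => x.elim (2 * num v) (fun u => 2 * num u + 1)) := by
    intro x y hxy
    cases x with
    | none =>
      cases y with
      | none => rfl
      | some y => simp only [Option.elim_none, Option.elim_some] at hxy; omega
    | some x =>
      cases y with
      | none => simp only [Option.elim_none, Option.elim_some] at hxy; omega
      | some y =>
        simp only [Option.elim_some] at hxy
        have : num x = num y := by omega
        rw [hw.1 this]
  have hc2 : (ct (ns v a b s) (ns v a b t) {none}).card = 2 := by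
    rw [ct_none ha hb, card_pair hab]
  have hcv : (ct (ns v a b s) (ns v a b t) {some v}).card + 2 = (ct s t {v}).card := by
    have hsub : ({a, b} : Finset E) ⊆ ct s t {v} := by
      intro e he
      rw [mem_insert, mem_singleton] at he
      rcases he with he | he
      · exact he ▸ ha
      · exact he ▸ hb
    rw [ct_v ha hb, card_sdiff_of_subset hsub, card_pair hab]
    omega
  by_cases hG : ∃ Z0 : Set (Option V), ¬ (none ∈ Z0 ↔ some v ∈ Z0) ∧
      ct (ns v a b s) (ns v a b t) Z0 = ∅
  · -- no new edge
    obtain ⟨Z0, hZ0, hZ1⟩ := hG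
    obtain ⟨f, hf1, hf2⟩ := IH (Option V) E (ns v a b s) (ns v a b t)
      (fun x : Option V => x.elim (2 * num v) (fun u => 2 * num u + 1)) (by
        intro Z
        by_cases hZ : (none ∈ Z ↔ some v ∈ Z)
        · rw [ct_same hZ]; exact hbr _
        · have h1 : ct (ns v a b s) (ns v a b t) Z =
              ct (ns v a b s) (ns v a b t) {x | ¬ (x ∈ Z ↔ x ∈ Z0)} := by
            apply ct_congr
            intro e
            have h2 : e ∉ ct (ns v a b s) (ns v a b t) Z0 := by rw [hZ1]; exact notMem_empty _
            rw [mem_ct, not_not] at h2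
            simp only [Set.mem_ofPred_eq]
            tauto
          rw [h1, ct_same]
          · exact hbr _
          · simp only [Set.mem_ofPred_eq]
            tauto) ⟨hinj, by
        intro n
        by_cases hn : (none ∈ {x : Option V | x.elim (2 * num v) (fun u => 2 * num u + 1) < n} ↔
            some v ∈ {x : Option V | x.elim (2 * num v) (fun u => 2 * num u + 1) < n})
        · exact hsame n hn
        · exact le_trans (Nat.le_add_right _ 2) (hsep n hn)⟩ (by
        rw [Fintype.sum_option, hc2, ← add_sum_erase univ _ (mem_univ v),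
          ← add_sum_erase univ (fun x => phi (ct s t {x}).card) (mem_univ v)]
        have h1 : ∑ x ∈ univ.erase v, phi (ct (ns v a b s) (ns v a b t) {some x}).card =
            ∑ x ∈ univ.erase v, phi (ct s t {x}).card :=
          sum_congr rfl fun x hx => by rw [ct_other (mem_erase.1 hx).1]
        rw [h1, ← add_assoc]
        apply Nat.add_lt_add_right
        rw [← hcv] at hd ⊢
        generalize (ct (ns v a b s) (ns v a b t) {some v}).card = d at hd ⊢
        unfold phi
        split_ifs <;> omega)
    refine ⟨f, hf1, fun u => ?_⟩
    have h3 := push (fun x : Option V => x.getD v) _ _ f hf2 u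
    simp only [ns_pi] at h3
    exact h3
  · push Not at hG
    obtain ⟨f, hf1, hf2⟩ := IH (Option V) (Option E) (os v a b s) (ot v a b t)
      (fun x : Option V => x.elim (2 * num v) (fun u => 2 * num u + 1)) (by
        intro Z
        rw [ct_opt]
        by_cases hZ : (none ∈ Z ↔ some v ∈ Z)
        · rw [if_pos hZ, zero_add, ct_same hZ]; exact hbr _
        · rw [if_neg hZ]
          have h1 := hG Z (by tauto)
          rw [← card_pos] at h1
          omega) ⟨hinj, by
        intro n
        rw [ct_opt]
        by_cases hn : (none ∈ {x : Option V | x.elim (2 * num v) (fun u => 2 * num u + 1) < n} ↔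
            some v ∈ {x : Option V | x.elim (2 * num v) (fun u => 2 * num u + 1) < n})
        · rw [if_pos hn, zero_add]; exact hsame n hn
        · rw [if_neg hn]
          have := hsep n hn
          refine le_trans ?_ this
          rw [add_comm]
          exact Nat.add_le_add_left (by norm_num) _⟩ (by
        have e1 : (ct (os v a b s) (ot v a b t) {none}).card = 3 := by
          rw [ct_opt, hc2, if_neg (by simp)]
        have e2 : (ct (os v a b s) (ot v a b t) {some v}).card =
            1 + (ct (ns v a b s) (ns v a b t) {some v}).card := by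
          rw [ct_opt, if_neg (by simp)]
        rw [Fintype.sum_option, e1, ← add_sum_erase univ _ (mem_univ v),
          ← add_sum_erase univ (fun x => phi (ct s t {x}).card) (mem_univ v), e2]
        have h1 : ∑ x ∈ univ.erase v, phi (ct (os v a b s) (ot v a b t) {some x}).card =
            ∑ x ∈ univ.erase v, phi (ct s t {x}).card :=
          sum_congr rfl fun x hx => by
            have hx' := (mem_erase.1 hx).1
            rw [ct_opt, ct_other hx', if_pos (by simp [hx'.symm]), zero_add]
        rw [h1, ← add_assoc]
        apply Nat.add_lt_add_right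
        rw [← hcv] at hd ⊢
        generalize (ct (ns v a b s) (ns v a b t) {some v}).card = d at hd ⊢
        unfold phi
        split_ifs <;> omega)
    refine ⟨fun e => f (some e), fun e => hf1 _, fun u => ?_⟩
    have h3 := push (fun x : Option V => x.getD v) _ _ f hf2 u
    unfold nt at h3 ⊢
    rw [Fintype.sum_option] at h3
    beta_reduce at h3
    have h4 : (os v a b s none).getD v = v := rfl
    have h5 : (ot v a b t none).getD v = v := rfl
    rw [h4, h5, sub_self, zero_add] at h3
    refine Eq.trans ?_ h3
    refine sum_congr rfl fun e _ => ?_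
    have h6 : (os v a b s (some e)).getD v = s e := ns_pi e
    have h7 : (ot v a b t (some e)).getD v = t e := ns_pi e
    rw [h6, h7]

end Pool.Agent.Y425.CW
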