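import Pool.Agent.Y425.CW.RedA

set_option autoImplicit false
set_option linter.unusedVariables false
set_option linter.unusedSectionVars false

/-!
Reduction of bridgeless graphs of bounded cutwidth to cubic ones: vertices of degree two, isolated
vertices and loops; the induction.
-/

open Finset

namespace Pool.Agent.Y425.CW

variable {V E Γ : Type} [Fintype E] [AddCommGroup Γ]

/-- the edge e1 becomes a loop at a, the edge e2 moves from v to a -/
noncomputable def cs (v a : V) (e1 e2 : E) (s : E → V) (e : E) : V :=
  open Classical in if e = e1 then a else if e = e2 ∧ s e = v then a else s e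

theorem caseB [Fintype V] {s t : E → V} {B : Set Γ} (hB : ∀ x ∈ B, - x ∈ B) {w : ℕ} {num : V → ℕ}
    (hbr : Br s t) (hw : Wd w s t num) (v : V) (hd : (ct s t {v}).card = 2)
    (IH : ∀ (V' E' : Type) [Fintype V'] [Fintype E'] (s' t' : E' → V') (num' : V' → ℕ),
      Br s' t' → Wd w s' t' num' →
      ∑ x, phi (ct s' t' {x}).card < ∑ x, phi (ct s t {x}).card → HasFl B s' t') :
    HasFl B s t := by
  classical
  obtain ⟨e1, e2, h12, hcut⟩ := card_eq_two.1 hd
  have hm : ∀ e, e ∈ ct s t {v} ↔ e = e1 ∨ e = e2 := by
    intro e; rw [hcut, mem_insert, mem_singleton]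
  have m1 := (mem_ct_one (s := s) (t := t) (v := v)).1 ((hm e1).2 (Or.inl rfl))
  have m2 := (mem_ct_one (s := s) (t := t) (v := v)).1 ((hm e2).2 (Or.inr rfl))
  obtain ⟨a, ha, hav⟩ : ∃ a, ((s e1 = v ∧ t e1 = a) ∨ (t e1 = v ∧ s e1 = a)) ∧ a ≠ v := by
    rcases m1 with ⟨h1, h2⟩ | ⟨h1, h2⟩
    · exact ⟨t e1, Or.inl ⟨h1, rfl⟩, h2⟩
    · exact ⟨s e1, Or.inr ⟨h2, rfl⟩, h1⟩
  have hoth : ∀ e, e ≠ e1 → e ≠ e2 → (s e = v ∧ t e = v) ∨ (s e ≠ v ∧ t e ≠ v) := by
    intro e h1 h2
    have h3 := (not_congr (hm e)).2 (by tauto)
    rw [mem_ct_one] at h3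
    tauto
  -- cuts
  have hZ : ∀ Z : Set V, ct (cs v a e1 e2 s) (cs v a e1 e2 t) Z =
      ct s t {u | if u = v then a ∈ Z else u ∈ Z} := by
    intro Z
    apply ct_congr
    intro e
    simp only [Set.mem_ofPred_eq]
    unfold cs
    by_cases h1 : e = e1
    · subst h1
      rw [if_pos rfl, if_pos rfl]
      rcases ha with ⟨h2, h3⟩ | ⟨h2, h3⟩
      · rw [if_pos h2, if_neg (by rw [h3]; exact hav), h3]
      · rw [if_neg (by rw [h3]; exact hav), if_pos h2, h3]
    · by_cases h2 : e = e2
      · subst h2
        rw [if_neg h1, if_neg h1]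
        rcases m2 with ⟨h3, h4⟩ | ⟨h3, h4⟩
        · rw [if_pos ⟨rfl, h3⟩, if_neg (fun h => h4 h.2), if_pos h3, if_neg h4]
        · rw [if_neg (fun h => h3 h.2), if_pos ⟨rfl, h4⟩, if_neg h3, if_pos h4]
      · rw [if_neg h1, if_neg h1, if_neg (fun h => h2 h.1), if_neg (fun h => h2 h.1)]
        rcases hoth e h1 h2 with ⟨h3, h4⟩ | ⟨h3, h4⟩
        · rw [if_pos h3, if_pos h4, h3, h4]
          simp
        · rw [if_neg h3, if_neg h4]
  have hmono : ∀ Z : Set V, ¬ (a ∈ Z ↔ v ∈ Z) →
      (ct s t {u | if u = v then a ∈ Z else u ∈ Z}) ⊆ insert e2 ((ct s t Z).erase e1) ∧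
      e1 ∈ ct s t Z := by
    intro Z hZ'
    constructor
    · intro e he
      rw [mem_ct] at he
      simp only [Set.mem_ofPred_eq] at he
      rw [mem_insert, mem_erase]
      by_cases h2 : e = e2
      · exact Or.inl h2
      · right
        have h1 : e ≠ e1 := by
          rintro rfl
          apply he
          rcases ha with ⟨h2, h3⟩ | ⟨h2, h3⟩
          · rw [if_pos h2, if_neg (by rw [h3]; exact hav), h3]
          · rw [if_neg (by rw [h3]; exact hav), if_pos h2, h3]
        refine ⟨h1, ?_⟩
        rw [mem_ct]
        rcases hoth e h1 h2 with ⟨h3, h4⟩ | ⟨h3, h4⟩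
        · rw [if_pos h3, if_pos h4] at he
          exact absurd Iff.rfl he
        · rw [if_neg h3, if_neg h4] at he
          exact he
    · rw [mem_ct]
      rcases ha with ⟨h2, h3⟩ | ⟨h2, h3⟩
      · rw [h2, h3]; tauto
      · rw [h2, h3]; exact hZ'
  have hsm : ∀ Z : Set V, (a ∈ Z ↔ v ∈ Z) → {u | if u = v then a ∈ Z else u ∈ Z} = Z := by
    intro Z h
    ext u
    simp only [Set.mem_ofPred_eq]
    by_cases hu : u = v
    · rw [if_pos hu, hu, h]
    · rw [if_neg hu]
  obtain ⟨f, hf1, hf2⟩ := IH V E (cs v a e1 e2 s) (cs v a e1 e2 t) num (by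
      intro Z
      rw [hZ]
      exact hbr _) ⟨hw.1, by
      intro n
      rw [hZ]
      have h0 := hw.2 n
      by_cases h : (a ∈ {u | num u < n} ↔ v ∈ {u | num u < n})
      · rw [hsm _ h]; exact h0
      · obtain ⟨h1, h2⟩ := hmono _ h
        refine le_trans (card_le_card h1) (le_trans (card_insert_le _ _) ?_)
        rw [card_erase_of_mem h2]
        have := card_pos.2 ⟨_, h2⟩
        omega⟩ (by
      have hlt : phi (ct (cs v a e1 e2 s) (cs v a e1 e2 t) {v}).card <
          phi (ct s t {v}).card := by
        rw [hd, hZ]
        have : ct s t {u | if u = v then a ∈ ({v} : Set V) else u ∈ ({v} : Set V)} = ∅ := by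
          rw [eq_empty_iff_forall_notMem]
          intro e he
          rw [mem_ct] at he
          apply he
          have : ∀ x : V, ¬ (x ∈ {u | if u = v then a ∈ ({v} : Set V) else u ∈ ({v} : Set V)}) := by
            intro x
            simp only [Set.mem_ofPred_eq, Set.mem_singleton_iff]
            split_ifs with h
            · exact hav
            · exact h
          exact ⟨fun h => absurd h (this _), fun h => absurd h (this _)⟩
        rw [this, card_empty]
        decide
      refine sum_lt_sum (fun u _ => ?_) ⟨v, mem_univ _, hlt⟩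
      by_cases huv : u = v
      · rw [huv]; exact hlt.le
      by_cases hua : u = a
      · subst hua
        rw [hZ]
        have hns : ¬ (u ∈ ({u} : Set V) ↔ v ∈ ({u} : Set V)) := by
          simp only [Set.mem_singleton_iff, true_iff]
          exact fun h => hav h.symm
        obtain ⟨h1, h2⟩ := hmono _ hns
        -- exact description of the new cut
        have hcard : (ct s t {x | if x = v then u ∈ ({u} : Set V) else x ∈ ({u} : Set V)}).card =
            (ct s t {u}).card ∨
            (ct s t {x | if x = v then u ∈ ({u} : Set V) else x ∈ ({u} : Set V)}).card + 2 =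
            (ct s t {u}).card := by
          have hex : ∀ e, e ≠ e1 → e ≠ e2 →
              (e ∈ ct s t {x | if x = v then u ∈ ({u} : Set V) else x ∈ ({u} : Set V)} ↔
              e ∈ ct s t {u}) := by
            intro e g1 g2
            rw [mem_ct, mem_ct]
            simp only [Set.mem_ofPred_eq]
            rcases hoth e g1 g2 with ⟨h3, h4⟩ | ⟨h3, h4⟩
            · rw [if_pos h3, if_pos h4, h3, h4]
              simp
            · rw [if_neg h3, if_neg h4]
          have hn1 : e1 ∉ ct s t {x | if x = v then u ∈ ({u} : Set V) else x ∈ ({u} : Set V)} := by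
            intro h
            have := h1 h
            rw [mem_insert, mem_erase] at this
            rcases this with h3 | h3
            · exact h12 h3
            · exact h3.1 rfl
          have he2 : e2 ∈ ct s t {x | if x = v then u ∈ ({u} : Set V) else x ∈ ({u} : Set V)} ↔
              e2 ∉ ct s t {u} := by
            rw [mem_ct, mem_ct_one]
            simp only [Set.mem_ofPred_eq, Set.mem_singleton_iff]
            rcases m2 with ⟨h3, h4⟩ | ⟨h3, h4⟩
            · rw [if_pos h3, if_neg h4, h3]
              have : v ≠ u := fun h => hav h.symm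
              tauto
            · rw [if_neg h3, if_pos h4, h4]
              have : v ≠ u := fun h => hav h.symm
              tauto
          by_cases hh : e2 ∈ ct s t {u}
          · right
            have : ct s t {x | if x = v then u ∈ ({u} : Set V) else x ∈ ({u} : Set V)} =
                (ct s t {u}) \ {e1, e2} := by
              ext e
              rw [mem_sdiff, mem_insert, mem_singleton]
              by_cases g1 : e = e1
              · subst g1; tauto
              · by_cases g2 : e = e2
                · subst g2; tauto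
                · rw [hex e g1 g2]; tauto
            have hsub : ({e1, e2} : Finset E) ⊆ ct s t {u} := by
              intro e he
              rw [mem_insert, mem_singleton] at he
              rcases he with he | he
              · exact he ▸ h2
              · exact he ▸ hh
            have h5 := card_le_card hsub
            rw [this, card_sdiff_of_subset hsub]
            rw [card_pair h12] at h5 ⊢
            omega
          · left
            have : ct s t {x | if x = v then u ∈ ({u} : Set V) else x ∈ ({u} : Set V)} =
                insert e2 ((ct s t {u}).erase e1) := by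
              ext e
              rw [mem_insert, mem_erase]
              by_cases g1 : e = e1
              · subst g1; tauto
              · by_cases g2 : e = e2
                · subst g2; tauto
                · rw [hex e g1 g2]; tauto
            rw [this, card_insert_of_notMem (fun h => hh (mem_erase.1 h).2),
              card_erase_of_mem h2]
            have := card_pos.2 ⟨_, h2⟩
            omega
        rcases hcard with h3 | h3
        · rw [h3]
        · rw [← h3]
          unfold phi
          split_ifs <;> omega
      · rw [hZ]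
        apply le_of_eq
        congr 2
        apply ct_congr
        intro e
        simp only [Set.mem_ofPred_eq, Set.mem_singleton_iff]
        have : ∀ x : V, (if x = v then a = u else x = u) ↔ x = u := by
          intro x
          by_cases hx : x = v
          · rw [if_pos hx]
            constructor
            · intro h; exact absurd h.symm hua
            · intro h; exact absurd (h.symm.trans hx) huv
          · rw [if_neg hx]
        rw [this, this])
  -- the flow
  obtain ⟨g, hg⟩ : ∃ g : E → Γ, ∀ e, g e = if e = e1 then
      (if (s e1 = v ↔ s e2 = v) then - f e2 else f e2) else f e := ⟨_, fun e => rfl⟩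
  have hg1 : g e1 = if (s e1 = v ↔ s e2 = v) then - f e2 else f e2 := by rw [hg, if_pos rfl]
  have hg2 : ∀ e, e ≠ e1 → g e = f e := fun e he => by rw [hg, if_neg he]
  have hv0 : nt s t g v = 0 := by
    unfold nt
    have h1 : ∑ e, ((if s e = v then g e else 0) - (if t e = v then g e else 0)) =
        ∑ e ∈ ({e1, e2} : Finset E), ((if s e = v then g e else 0) -
          (if t e = v then g e else 0)) := by
      symm
      apply sum_subset (subset_univ _)
      intro e _ he
      rw [mem_insert, mem_singleton] at he
      push Not at he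
      rcases hoth e he.1 he.2 with ⟨h3, h4⟩ | ⟨h3, h4⟩
      · rw [if_pos h3, if_pos h4, sub_self]
      · rw [if_neg h3, if_neg h4, sub_self]
    rw [h1, sum_pair h12, hg1, hg2 e2 (fun h => h12 h.symm)]
    rcases m1 with ⟨h3, h4⟩ | ⟨h3, h4⟩ <;> rcases m2 with ⟨h5, h6⟩ | ⟨h5, h6⟩ <;>
      simp [h3, h4, h5, h6]
  have hu0 : ∀ u, u ≠ v → u ≠ a → nt s t g u = 0 := by
    intro u huv hua
    rw [← hf2 u]
    unfold nt
    refine sum_congr rfl fun e _ => ?_
    unfold cs
    by_cases h1 : e = e1
    · subst h1
      rw [if_pos rfl, if_pos rfl]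
      rcases ha with ⟨h2, h3⟩ | ⟨h2, h3⟩
      · rw [if_neg (by rw [h2]; exact fun h => huv h.symm),
          if_neg (by rw [h3]; exact fun h => hua h.symm), if_neg (fun h => hua h.symm)]
      · rw [if_neg (by rw [h3]; exact fun h => hua h.symm),
          if_neg (by rw [h2]; exact fun h => huv h.symm), if_neg (fun h => hua h.symm)]
    · rw [hg2 e h1, if_neg h1, if_neg h1]
      have key : ∀ q : E → V, ((if e = e2 ∧ q e = v then a else q e) = u ↔ q e = u) := by
        intro q
        split_ifs with h
        · constructor
          · intro h'; exact absurd h'.symm hua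
          · intro h'; exact absurd (h'.symm.trans h.2) huv
        · exact Iff.rfl
      simp only [key]
  refine ⟨g, ?_, ?_⟩
  · intro e
    rw [hg]
    split_ifs
    · exact hB _ (hf1 _)
    · exact hf1 _
    · exact hf1 _
  · intro u
    by_cases huv : u = v
    · rw [huv]; exact hv0
    by_cases hua : u = a
    · have h1 := nt_total s t g
      rw [← add_sum_erase univ _ (mem_univ u)] at h1
      have h2 : ∑ x ∈ univ.erase u, nt s t g x = 0 := by
        refine sum_eq_zero fun x hx => ?_
        have hx' := (mem_erase.1 hx).1
        by_cases hxv : x = v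
        · rw [hxv]; exact hv0
        · exact hu0 x hxv (fun h => hx' (h.trans hua.symm))
      rw [h2, add_zero] at h1
      exact h1
    · exact hu0 u huv hua

theorem caseC [Fintype V] {s t : E → V} {B : Set Γ} (hne : B.Nonempty) {w : ℕ} {num : V → ℕ}
    (hbr : Br s t) (hw : Wd w s t num)
    (hd : ∀ v, (ct s t {v}).card = 0 ∨ (ct s t {v}).card = 3)
    (H : ∀ (V' E' : Type) [Fintype V'] [Fintype E'] (s' t' : E' → V') (num' : V' → ℕ),
      (∀ e, s' e ≠ t' e) → (∀ v, (ct s' t' {v}).card = 3) → Br s' t' → Wd w s' t' num' →
      HasFl B s' t') :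
    HasFl B s t := by
  classical
  have hs3 : ∀ e, s e ≠ t e → (ct s t {s e}).card = 3 := by
    intro e he
    rcases hd (s e) with h | h
    · rw [card_eq_zero] at h
      have : e ∈ ct s t {s e} := by
        rw [mem_ct_one]; exact Or.inl ⟨rfl, fun h => he h.symm⟩
      rw [h] at this
      exact absurd this (notMem_empty _)
    · exact h
  have ht3 : ∀ e, s e ≠ t e → (ct s t {t e}).card = 3 := by
    intro e he
    rcases hd (t e) with h | h
    · rw [card_eq_zero] at h
      have : e ∈ ct s t {t e} := by
        rw [mem_ct_one]; exact Or.inr ⟨he, rfl⟩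
      rw [h] at this
      exact absurd this (notMem_empty _)
    · exact h
  have hcard : ∀ Z : Set V, (ct (E := {e // s e ≠ t e}) (V := {v // (ct s t {v}).card = 3})
      (fun e => ⟨s e.1, hs3 e.1 e.2⟩) (fun e => ⟨t e.1, ht3 e.1 e.2⟩)
      {x | (x : V) ∈ Z}).card = (ct s t Z).card := by
    intro Z
    apply card_bij (fun e _ => e.1)
    · intro e he
      rw [mem_ct] at he ⊢
      exact he
    · intro e _ e' _ h
      exact Subtype.ext h
    · intro e he
      have hne' : s e ≠ t e := by
        intro h
        rw [mem_ct, h] at he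
        exact he Iff.rfl
      refine ⟨⟨e, hne'⟩, ?_, rfl⟩
      rw [mem_ct] at he ⊢
      exact he
  obtain ⟨f, hf1, hf2⟩ := H {v // (ct s t {v}).card = 3} {e // s e ≠ t e}
    (fun e => ⟨s e.1, hs3 e.1 e.2⟩) (fun e => ⟨t e.1, ht3 e.1 e.2⟩) (fun v => num v.1)
    (fun e h => e.2 (Subtype.ext_iff.1 h)) (by
      intro v
      refine Eq.trans ?_ ((hcard {v.1}).trans v.2)
      congr 1
      apply ct_congr
      intro e
      simp only [Set.mem_singleton_iff, Set.mem_ofPred_eq, Subtype.ext_iff]) (by
      intro Z
      have h1 := hcard (Subtype.val '' Z)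
      have h2 : {x : {v // (ct s t {v}).card = 3} | (x : V) ∈ Subtype.val '' Z} = Z := by
        ext x
        simp only [Set.mem_ofPred_eq, Subtype.val_injective.mem_set_image]
      rw [h2] at h1
      rw [h1]
      exact hbr _) ⟨fun x y hxy => Subtype.ext (hw.1 hxy), by
      intro n
      refine le_trans (le_of_eq ?_) (hw.2 n)
      rw [← hcard {v | num v < n}]
      rfl⟩
  obtain ⟨b0, hb0⟩ := hne
  refine ⟨fun e => if h : s e ≠ t e then f ⟨e, h⟩ else b0, ?_, ?_⟩
  · intro e
    beta_reduce
    split_ifs
    · exact hf1 _
    · exact hb0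
  · intro v
    rcases hd v with h | h
    · unfold nt
      refine sum_eq_zero fun e _ => ?_
      rw [card_eq_zero] at h
      have h1 : e ∉ ct s t {v} := by rw [h]; exact notMem_empty _
      rw [mem_ct_one] at h1
      by_cases h2 : s e = v
      · have h3 : t e = v := by tauto
        rw [if_pos h2, if_pos h3, sub_self]
      · have h3 : t e ≠ v := by tauto
        rw [if_neg h2, if_neg h3, sub_self]
    · have h1 := hf2 ⟨v, h⟩
      unfold nt at h1 ⊢
      have h2 : ∑ e, ((if s e = v then (if h : s e ≠ t e then f ⟨e, h⟩ else b0) else 0) -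
          (if t e = v then (if h : s e ≠ t e then f ⟨e, h⟩ else b0) else 0)) =
          ∑ e ∈ univ.filter (fun e => s e ≠ t e),
            ((if s e = v then (if h : s e ≠ t e then f ⟨e, h⟩ else b0) else 0) -
          (if t e = v then (if h : s e ≠ t e then f ⟨e, h⟩ else b0) else 0)) := by
        symm
        apply sum_subset (subset_univ _)
        intro e _ he
        rw [mem_filter] at he
        have h3 : s e = t e := by
          by_contra h4
          exact he ⟨mem_univ _, h4⟩
        by_cases h5 : s e = v
        · rw [if_pos h5, if_pos (h3.symm.trans h5), sub_self]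
        · rw [if_neg h5, if_neg (fun h6 => h5 (h3.trans h6)), sub_self]
      rw [h2]
      refine Eq.trans ?_ h1
      symm
      apply sum_bij (fun e _ => e.1)
      · intro e _
        rw [mem_filter]
        exact ⟨mem_univ _, e.2⟩
      · intro e _ e' _ h
        exact Subtype.ext h
      · intro e he
        rw [mem_filter] at he
        exact ⟨⟨e, he.2⟩, mem_univ _, rfl⟩
      · intro e _
        rw [dif_pos e.2]
        simp only [Subtype.ext_iff]

theorem red {B : Set Γ} (hB : ∀ x ∈ B, - x ∈ B) (hne : B.Nonempty) (w : ℕ)
    (H : ∀ (V' E' : Type) [Fintype V'] [Fintype E'] (s' t' : E' → V') (num' : V' → ℕ),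
      (∀ e, s' e ≠ t' e) → (∀ v, (ct s' t' {v}).card = 3) → Br s' t' → Wd w s' t' num' →
      HasFl B s' t') :
    ∀ (N : ℕ) (V E : Type) [Fintype V] [Fintype E] (s t : E → V) (num : V → ℕ), Br s t →
      Wd w s t num → ∑ x, phi (ct s t {x}).card ≤ N → HasFl B s t := by
  classical
  intro N
  induction N with
  | zero =>
    intro V E _ _ s t num hbr hw hN
    have h0 : ∀ v, phi (ct s t {v}).card = 0 := by
      intro v
      have := Finset.sum_eq_zero_iff.1 (Nat.le_zero.1 hN) v (mem_univ _)
      exact this
    refine caseC hne hbr hw (fun v => ?_) H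
    have h1 := h0 v
    have h2 := hbr {v}
    unfold phi at h1
    split_ifs at h1 <;> omega
  | succ N ih =>
    intro V E _ _ s t num hbr hw hN
    by_cases h2 : ∃ v, (ct s t {v}).card = 2
    · obtain ⟨v, hv⟩ := h2
      exact caseB hB hbr hw v hv (fun V' E' _ _ s' t' num' hbr' hw' hlt =>
        ih V' E' s' t' num' hbr' hw' (by omega))
    · by_cases h4 : ∃ v, 4 ≤ (ct s t {v}).card
      · obtain ⟨v, hv⟩ := h4
        -- the left and the right edges
        obtain ⟨L, hL⟩ : ∃ L : Finset E, ∀ e, e ∈ L ↔ e ∈ ct s t {v} ∧
            (s e ≠ v → num (s e) < num v) ∧ (t e ≠ v → num (t e) < num v) :=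
          ⟨(ct s t {v}).filter fun e => (s e ≠ v → num (s e) < num v) ∧
            (t e ≠ v → num (t e) < num v), fun e => mem_filter⟩
        obtain ⟨R, hR⟩ : ∃ R : Finset E, ∀ e, e ∈ R ↔ e ∈ ct s t {v} ∧
            (s e ≠ v → num v < num (s e)) ∧ (t e ≠ v → num v < num (t e)) :=
          ⟨(ct s t {v}).filter fun e => (s e ≠ v → num v < num (s e)) ∧
            (t e ≠ v → num v < num (t e)), fun e => mem_filter⟩
        have hLR : ct s t {v} ⊆ L ∪ R := by
          intro e he
          rw [mem_union, hL, hR]
          have h5 := mem_ct_one.1 he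
          rcases h5 with ⟨h6, h7⟩ | ⟨h6, h7⟩
          · have h8 : num (t e) ≠ num v := fun h => h7 (hw.1 h)
            rcases Nat.lt_or_gt_of_ne h8 with h9 | h9
            · exact Or.inl ⟨he, fun h => absurd h6 h, fun _ => h9⟩
            · exact Or.inr ⟨he, fun h => absurd h6 h, fun _ => h9⟩
          · have h8 : num (s e) ≠ num v := fun h => h6 (hw.1 h)
            rcases Nat.lt_or_gt_of_ne h8 with h9 | h9
            · exact Or.inl ⟨he, fun _ => h9, fun h => absurd h7 h⟩
            · exact Or.inr ⟨he, fun _ => h9, fun h => absurd h7 h⟩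
        have hc := (card_le_card hLR).trans (card_union_le _ _)
        by_cases h5 : 2 ≤ L.card
        · obtain ⟨a, ha, b, hb, hab⟩ := Finset.one_lt_card.1 h5
          rw [hL] at ha hb
          refine caseA hbr hw v a b hab ha.1 hb.1 ?_ hv (fun V' E' _ _ s' t' num' hbr' hw' hlt =>
            ih V' E' s' t' num' hbr' hw' (by omega))
          rintro e (rfl | rfl)
          · exact ha.2
          · exact hb.2
        · have h6 : 2 ≤ R.card := by omega
          obtain ⟨a, ha, b, hb, hab⟩ := Finset.one_lt_card.1 h6
          rw [hR] at ha hb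
          obtain ⟨M, hM, hw'⟩ := Wd.rev hw
          refine caseA hbr hw' v a b hab ha.1 hb.1 ?_ hv
            (fun V' E' _ _ s' t' num' hbr' hw' hlt => ih V' E' s' t' num' hbr' hw' (by omega))
          have key : ∀ e, ((s e ≠ v → num v < num (s e)) ∧ (t e ≠ v → num v < num (t e))) →
              (s e ≠ v → M - num (s e) < M - num v) ∧ (t e ≠ v → M - num (t e) < M - num v) := by
            intro e he
            have g1 := hM (s e)
            have g2 := hM (t e)
            refine ⟨fun h => ?_, fun h => ?_⟩
            · have := he.1 h; omega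
            · have := he.2 h; omega
          rintro e (rfl | rfl)
          · exact key _ ha.2
          · exact key _ hb.2
      · push Not at h2 h4
        refine caseC hne hbr hw (fun v => ?_) H
        have g1 := h2 v
        have g2 := h4 v
        have g3 := hbr {v}
        omega

end Pool.Agent.Y425.CW
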