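import Pool.Agent.TH222.RG.Step

set_option autoImplicit false

/-!
# Boundary types for flows with values in a symmetric subset of an abelian group

A colour system gives codes (natural numbers) for the elements of a finite set of values in an
abelian group, together with some symmetries of the set of codes. The boundary types (BT) and their
entries (Ent) are the records of Pool.Agent.TH222.RG.Chk; here a state of a type is a list of codes
(5 bits each, 30 bits for a state), one for each port, and in the number ws of an entry 20 bits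
describe the source of each state (10 bits for the number of the state, 10 bits for the symmetry).
-/

namespace Pool.Agent.Y425.CW

open Pool.Agent.TH697.CW6 (allB dig)
open Pool.Agent.TH222.RG (BT Ent pc8 portsB factB exclB xorB patB)

/-- colour systems -/
structure CSys (Γ : Type) where
  vc : ℕ → Bool
  val : ℕ → Γ
  ng : ℕ
  pt : ℕ → ℕ → ℕ
  zs : ℕ → (ℕ → ℕ) → Bool

/-- the values of a colour system -/
def CSys.vals {Γ : Type} (S : CSys Γ) : Set Γ := {x | ∃ c, S.vc c = true ∧ S.val c = x}

/-- the conditions on a colour system -/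
structure CSys.Ok {Γ : Type} [AddCommGroup Γ] (S : CSys Γ) : Prop where
  neg : ∀ c, S.vc c = true → ∃ d, S.vc d = true ∧ S.val d = - S.val c
  sym : ∀ g < S.ng, ∃ φ : Γ →+ Γ, ∀ c, S.vc c = true →
    S.vc (S.pt g c) = true ∧ S.val (S.pt g c) = φ (S.val c)
  sum : ∀ k ≤ 8, ∀ F : ℕ → ℕ, (∀ i < k, S.vc (F i) = true) → S.zs k F = true →
    ∑ i ∈ Finset.range k, S.val (F i) = 0

/-- code of the port i in the state j -/
def cd (st j i : ℕ) : ℕ :=
  Nat.land (Nat.shiftRight st (Nat.add (Nat.mul 30 j) (Nat.mul 5 i))) 31

variable {Γ : Type}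

noncomputable def stOK (S : CSys Γ) (st0 src g k' st' j c : ℕ) : Bool :=
  allB k' (fun i => cond (Nat.blt (dig c i) 8)
    (Nat.beq (S.pt g (cd st0 src (dig c i))) (cd st' j i)) true)

noncomputable def statesF (S : CSys Γ) (t : BT) (n' st' k' c ws : ℕ) : Bool :=
  allB n' fun j =>
    let w := Nat.land (Nat.shiftRight ws (Nat.mul 20 j)) 1048575
    cond (Nat.blt (Nat.shiftRight w 10) t.n)
      (cond (Nat.blt (Nat.land w 1023) S.ng)
        (stOK S t.st (Nat.shiftRight w 10) (Nat.land w 1023) k' st' j c) false) false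

noncomputable def chkF (S : CSys Γ) (tbl : ℕ → BT) (t : BT) (e : Ent) : Bool :=
  match tbl e.ti with
  | ⟨k', par', n', st', fs'⟩ =>
    Nat.beq (Nat.add k' (Nat.mul 2 (pc8 e.lm))) (Nat.add t.k 3) &&
      (xorB par' t.par && (portsB 3 t.k e.lm k' e.c &&
        ((fs'.all fun P => factB 3 t e.lm k' e.c P) && statesF S t n' st' k' e.c e.ws)))

/-- a type is well formed -/
noncomputable def okF (S : CSys Γ) (t : BT) : Bool :=
  Nat.ble t.k 8 && ((t.fs.all fun P => Nat.blt P.1 (Nat.shiftLeft 1 t.k)) &&
    allB t.n fun j => (allB t.k fun i => S.vc (cd t.st j i)) && S.zs t.k (fun i => cd t.st j i))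

noncomputable def chkFT (S : CSys Γ) (w : ℕ) (tbl : ℕ → BT) (t : BT) (es : List Ent) : Bool :=
  okF S t && (es.all (fun e => chkF S tbl t e) && allB (Nat.shiftLeft 1 t.k) fun lm =>
    cond (patB 3 w t.k lm) (exclB 3 t lm || es.any fun e => Nat.beq e.lm lm) true)

end Pool.Agent.Y425.CW
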